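import Pool.Agent.KDT.StmtsK

set_option autoImplicit false

/-!
# Row SHF of squad KDT (problem MP_160b6c_nt)

Positions of the translate of a Mumford pair by a point of order 2.
-/

namespace Pool.Agent.KDT.H64

open Polynomial NumberField H58Q Pool.Agent.SZT Pool.Agent.KDT

theorem mum_neg {K : Type} [Field K] {f A B : K[X]} (h : Mum f A B) : Mum f A (-B) where
  monic := h.monic
  deg := by
    rw [degree_neg]
    exact h.deg
  dvd := by
    rw [neg_sq]
    exact h.dvd

theorem mum_root {K : Type} [Field K] {f : K[X]} {a : K} (h : f.IsRoot a) :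
    Mum f (X - C a) 0 where
  monic := monic_X_sub_C a
  deg := by
    rw [degree_zero, degree_X_sub_C]
    exact WithBot.bot_lt_coe 1
  dvd := by
    rw [zero_pow two_ne_zero, zero_sub, dvd_neg]
    exact dvd_iff_isRoot.2 h

/-- the half point -/
theorem pos_half {L : Type} [NormedField L] {X : L} (h0 : X ≠ 0) (h1 : ‖X‖ < 1) :
    SZT.B.pos ‖X ^ 2‖ X = 1 / 2 := by
  unfold SZT.B.pos
  rw [norm_pow, Real.log_pow]
  have h2 : Real.log ‖X‖ ≠ 0 := (Real.log_neg (norm_pos_iff.2 h0) h1).ne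
  push_cast
  field_simp

/-- the position of a root of `f` -/
theorem ss_root (nod : SZT.B.NodStmt) {L : Type} [NormedField L] [IsUltrametricDist L]
    {f : L[X]} {θ : Fin 5 → L} (s : ℕ → L) (h : SZT.B.Node f θ) (k : Fin 5) :
    SZT.B.ss θ s (X - C (θ k)) 0 = if k ≤ 1 then 1 / 2 else 0 := by
  classical
  obtain ⟨⟨he0, he1, -⟩, ⟨-, -, hh1⟩, -⟩ := nod L f θ h
  have h2 : (2 : L) ≠ 0 := by
    intro h3
    have h4 := h.two
    rw [h3, norm_zero] at h4
    exact zero_ne_one h4
  have key : ∀ z : L, z ^ 2 = SZT.B.eta θ → z ≠ 0 ∧ ‖z‖ < 1 ∧ SZT.B.pos ‖SZT.B.eta θ‖ z = 1 / 2 := by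
    intro z hz
    have hz0 : z ≠ 0 := by
      intro h3
      apply he0
      rw [← hz, h3, zero_pow two_ne_zero]
    have hz1 : ‖z‖ < 1 := by
      rw [← hz, norm_pow] at he1
      by_contra h3
      push Not at h3
      exact absurd he1 (not_lt.2 (one_le_pow₀ h3))
    refine ⟨hz0, hz1, ?_⟩
    rw [← hz]
    exact pos_half hz0 hz1
  unfold SZT.B.ss SZT.B.nz
  rw [roots_X_sub_C]
  by_cases hk : k ≤ 1
  · rw [if_pos hk]
    have h3 : (θ k - SZT.B.ctr θ) ^ 2 = SZT.B.eta θ := by
      have hk' : k = 0 ∨ k = 1 := by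
        revert hk
        revert k
        decide
      rcases hk' with hk' | hk'
      · subst hk'
        unfold SZT.B.ctr SZT.B.eta
        field_simp
        ring
      · subst hk'
        unfold SZT.B.ctr SZT.B.eta
        field_simp
        ring
    obtain ⟨-, h5, h6⟩ := key _ h3
    rw [Multiset.filter_singleton, if_pos h5, Multiset.map_singleton, Multiset.map_singleton,
      Multiset.sum_singleton]
    unfold SZT.B.crd
    rw [eval_zero, zero_div, add_zero]
    exact h6
  · rw [if_neg hk]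
    have h3 : ¬ ‖θ k - SZT.B.ctr θ‖ < 1 := by
      intro h4
      have h5 := hh1 _ h4
      have hk' : k = 2 ∨ k = 3 ∨ k = 4 := by
        clear h4 h5
        revert hk
        revert k
        decide
      have h6 : (SZT.B.hh θ).eval (θ k - SZT.B.ctr θ) = 0 := by
        unfold SZT.B.hh
        rcases hk' with hk' | hk' | hk' <;> subst hk' <;> simp
      rw [h6, norm_zero] at h5
      exact zero_ne_one h5
    rw [Multiset.filter_singleton, if_neg h3]
    simp

theorem shf (add : SZT.B.AddStmt) (nrm : SZT.B.NrmStmt) (cht : SZT.B.ChtStmt)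
    (nod : SZT.B.NodStmt) : ShfStatement := by
  classical
  intro Ω L _ _ _ _ _ j f θ s h2 hmo h5 hf hnode hsq A B A' B' V k hM hT
  have hodd : Odd f.natDegree := by rw [h5]; decide
  obtain ⟨hc1, hc2, -⟩ := cht L (f.map j) (fun k => j (θ k)) s hnode hsq
  have hfr : f.IsRoot (θ k) := by
    have h3 : (f.map j).eval (j (θ k)) = 0 := by
      rw [hnode.fac, eval_prod]
      refine Finset.prod_eq_zero (Finset.mem_univ k) ?_
      rw [eval_sub, eval_X, eval_C, sub_self]
    rw [eval_map_apply] at h3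
    exact (map_eq_zero_iff j j.injective).1 h3
  have hsplit : ∀ p : Polynomial Ω, (p.map j).Splits := fun p => (IsAlgClosed.splits p).map j
  have hMM : ∀ i, Mum f (![A, X - C (θ k), A'] i) (![B, 0, -B'] i) := by
    intro i
    fin_cases i
    · exact hM
    · exact mum_root hfr
    · exact mum_neg hT.mum
  have hid : MI f (![A, X - C (θ k), A'] 0) (![B, 0, -B'] 0) *
      MI f (![A, X - C (θ k), A'] 1) (![B, 0, -B'] 1) *
      MI f (![A, X - C (θ k), A'] 2) (![B, 0, -B'] 2) = Ideal.span {(⟨-V, 1⟩ : Q Ω f)} := hT.idl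
  obtain ⟨κ, hκ, hn⟩ := nrm Ω f ![A, X - C (θ k), A'] ![B, 0, -B'] _ h2 hodd hf hMM hid
  obtain ⟨n, hn'⟩ := add Ω L j f (fun k => j (θ k)) s ![A, X - C (θ k), A'] ![B, 0, -B'] _ κ
    hnode hsq hMM (fun i => hsplit _) hid hκ hn
  rw [Fin.sum_univ_three] at hn'
  have hn2 : SZT.B.ss (fun k => j (θ k)) s (A.map j) (B.map j) +
      SZT.B.ss (fun k => j (θ k)) s ((X - C (θ k)).map j) ((0 : Polynomial Ω).map j) +
      SZT.B.ss (fun k => j (θ k)) s (A'.map j) ((-B').map j) = n := hn'
  have h3 : SZT.B.ss (fun k => j (θ k)) s ((X - C (θ k)).map j) ((0 : Polynomial Ω).map j) =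
      if k ≤ 1 then 1 / 2 else 0 := by
    rw [Polynomial.map_sub, map_X, map_C, Polynomial.map_zero]
    exact ss_root nod s hnode k
  -- the opposite pair
  have hroot : ∀ a ∈ (A'.map j).roots, ((B'.map j).eval a) ^ 2 = (f.map j).eval a := by
    intro a ha
    obtain ⟨G, hG⟩ := hT.mum.dvd
    have h1 : (A'.map j).eval a = 0 := (mem_roots'.1 ha).2
    have h3 := congrArg (fun q : Polynomial Ω => (q.map j).eval a) hG
    simp only [Polynomial.map_sub, Polynomial.map_pow, Polynomial.map_mul, eval_sub, eval_pow,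
      eval_mul, h1, zero_mul] at h3
    exact sub_eq_zero.1 h3
  have h4 : SZT.B.ss (fun k => j (θ k)) s (A'.map j) ((-B').map j) +
      SZT.B.ss (fun k => j (θ k)) s (A'.map j) (B'.map j) =
      (((A'.map j).roots.filter
        (fun a => ‖a - SZT.B.ctr (fun k => j (θ k))‖ < 1)).card : ℝ) := by
    simp only [SZT.B.ss, SZT.B.nz, Multiset.map_map, Function.comp_def]
    rw [← Multiset.sum_map_add]
    have h4 : ∀ a ∈ (A'.map j).roots.filter
        (fun a => ‖a - SZT.B.ctr (fun k => j (θ k))‖ < 1),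
        SZT.B.pos ‖SZT.B.eta (fun k => j (θ k))‖
          (SZT.B.crd (fun k => j (θ k)) s a (((-B').map j).eval a)) +
          SZT.B.pos ‖SZT.B.eta (fun k => j (θ k))‖
            (SZT.B.crd (fun k => j (θ k)) s a ((B'.map j).eval a)) = 1 := by
      intro a ha
      obtain ⟨ha1, ha2⟩ := Multiset.mem_filter.1 ha
      obtain ⟨h6, _, _, h7⟩ := hc2 a ((B'.map j).eval a) (hroot a ha1) ha2
      rw [Polynomial.map_neg, eval_neg, h7]
      obtain ⟨_, _, _, _, _, _, _, h8, _, _⟩ := hc1 _ h6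
      rw [h8]
      ring
    rw [Multiset.map_congr rfl h4]
    simp
  rw [h3] at hn2
  obtain ⟨c, hc⟩ : ∃ c : ℕ, c = ((A'.map j).roots.filter
      (fun a => ‖a - SZT.B.ctr (fun k => j (θ k))‖ < 1)).card := ⟨_, rfl⟩
  rw [← hc] at h4
  refine ⟨(c : ℤ) - n, ?_⟩
  push_cast
  linarith

end Pool.Agent.KDT.H64
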